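import Pool.Agent.Helper35.HC.StE

/-!
# HC module LPG: comparison of increments near a point
-/

set_option autoImplicit false

namespace Helper87.HC

open Helper35.HC Helper35.HSF Helper35.MS Helper35.PI Helper35.PI2 Helper32.CL
open scoped ContDiff Manifold Topology ENNReal BigOperators
open MeasureTheory Set Filter

private lemma coreLPG {E W V : Type} [NormedAddCommGroup E] [NormedSpace ℝ E]
    [FiniteDimensional ℝ E] [NormedAddCommGroup W] [NormedSpace ℝ W]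
    [NormedAddCommGroup V] [NormedSpace ℝ V] (f : E → W) (g : E → V) (y : E)
    (hf : DifferentiableAt ℝ f y) (hg : DifferentiableAt ℝ g y)
    (hinj : ∀ h, fderiv ℝ f y h = 0 → h = 0) (B η : ℝ) (hB : 0 ≤ B) (hη : 0 < η) :
    ((∀ h, ‖fderiv ℝ g y h‖ ≤ B * ‖fderiv ℝ f y h‖) →
      ∀ᶠ z in 𝓝 y, ‖g z - g y‖ ≤ (B + η) * ‖f z - f y‖) ∧
    ((∀ h, B * ‖fderiv ℝ f y h‖ ≤ ‖fderiv ℝ g y h‖) →
      ∀ᶠ z in 𝓝 y, (B - η) * ‖f z - f y‖ ≤ ‖g z - g y‖) := by
  obtain ⟨K, hK0, hK⟩ : ∃ K : ℝ, 0 < K ∧ ∀ h, ‖h‖ ≤ K * ‖fderiv ℝ f y h‖ := by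
    have hker : LinearMap.ker ((fderiv ℝ f y : E →L[ℝ] W) : E →ₗ[ℝ] W) = ⊥ := by
      rw [LinearMap.ker_eq_bot']
      intro h hh
      exact hinj h hh
    obtain ⟨K, hK0, hK⟩ := LinearMap.exists_antilipschitzWith
      ((fderiv ℝ f y : E →L[ℝ] W) : E →ₗ[ℝ] W) hker
    refine ⟨K, by exact_mod_cast hK0, ?_⟩
    intro h
    have h1 := hK.le_mul_dist h 0
    rw [dist_zero_right, map_zero, dist_zero_right] at h1
    exact h1
  obtain ⟨w, hw⟩ : ∃ w : ℝ, w = min (1 / (2 * K)) (η / (2 * K * (B + 1))) := ⟨_, rfl⟩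
  have hB1 : 0 < B + 1 := by linarith
  have hw0 : 0 < w := by
    rw [hw]
    exact lt_min (by positivity) (by positivity)
  have hw1 : K * w ≤ 1 / 2 := by
    have h1 : w ≤ 1 / (2 * K) := by rw [hw]; exact min_le_left _ _
    calc K * w ≤ K * (1 / (2 * K)) := mul_le_mul_of_nonneg_left h1 hK0.le
      _ = 1 / 2 := by field_simp
  have hw2 : 2 * K * w * (B + 1) ≤ η := by
    have h1 : w ≤ η / (2 * K * (B + 1)) := by rw [hw]; exact min_le_right _ _
    calc 2 * K * w * (B + 1) = (2 * K * (B + 1)) * w := by ring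
      _ ≤ (2 * K * (B + 1)) * (η / (2 * K * (B + 1))) :=
        mul_le_mul_of_nonneg_left h1 (by positivity)
      _ = η := by field_simp
  have e1 : ∀ᶠ z in 𝓝 y, ‖f z - f y - fderiv ℝ f y (z - y)‖ ≤ w * ‖z - y‖ :=
    hf.hasFDerivAt.isLittleO.def hw0
  have e2 : ∀ᶠ z in 𝓝 y, ‖g z - g y - fderiv ℝ g y (z - y)‖ ≤ w * ‖z - y‖ :=
    hg.hasFDerivAt.isLittleO.def hw0
  -- common estimates
  have key : ∀ z, ‖f z - f y - fderiv ℝ f y (z - y)‖ ≤ w * ‖z - y‖ →
      ‖z - y‖ ≤ 2 * K * ‖f z - f y‖ := by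
    intro z hz
    have h1 := hK (z - y)
    have h2 : ‖fderiv ℝ f y (z - y)‖ ≤ ‖f z - f y‖ + w * ‖z - y‖ := by
      have h3 : fderiv ℝ f y (z - y) = (f z - f y) - (f z - f y - fderiv ℝ f y (z - y)) := by
        abel
      calc ‖fderiv ℝ f y (z - y)‖ = ‖(f z - f y) - (f z - f y - fderiv ℝ f y (z - y))‖ := by
            rw [← h3]
        _ ≤ ‖f z - f y‖ + ‖f z - f y - fderiv ℝ f y (z - y)‖ := norm_sub_le _ _
        _ ≤ _ := by linarith
    have h4 : K * ‖fderiv ℝ f y (z - y)‖ ≤ K * (‖f z - f y‖ + w * ‖z - y‖) :=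
      mul_le_mul_of_nonneg_left h2 hK0.le
    have h5 : K * w * ‖z - y‖ ≤ 1 / 2 * ‖z - y‖ :=
      mul_le_mul_of_nonneg_right hw1 (norm_nonneg _)
    linarith
  constructor
  · intro hle
    filter_upwards [e1, e2] with z h1 h2
    have h3 := key z h1
    have h4 := hle (z - y)
    have h5 : ‖fderiv ℝ f y (z - y)‖ ≤ ‖f z - f y‖ + w * ‖z - y‖ := by
      have h6 : fderiv ℝ f y (z - y) = (f z - f y) - (f z - f y - fderiv ℝ f y (z - y)) := by
        abel
      calc ‖fderiv ℝ f y (z - y)‖ = ‖(f z - f y) - (f z - f y - fderiv ℝ f y (z - y))‖ := by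
            rw [← h6]
        _ ≤ ‖f z - f y‖ + ‖f z - f y - fderiv ℝ f y (z - y)‖ := norm_sub_le _ _
        _ ≤ _ := by linarith
    have h7 : ‖g z - g y‖ ≤ ‖fderiv ℝ g y (z - y)‖ + w * ‖z - y‖ := by
      have h8 : g z - g y = fderiv ℝ g y (z - y) + (g z - g y - fderiv ℝ g y (z - y)) := by
        abel
      calc ‖g z - g y‖ = ‖fderiv ℝ g y (z - y) + (g z - g y - fderiv ℝ g y (z - y))‖ := by
            rw [← h8]
        _ ≤ ‖fderiv ℝ g y (z - y)‖ + ‖g z - g y - fderiv ℝ g y (z - y)‖ := norm_add_le _ _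
        _ ≤ _ := by linarith
    have h9 : B * ‖fderiv ℝ f y (z - y)‖ ≤ B * (‖f z - f y‖ + w * ‖z - y‖) :=
      mul_le_mul_of_nonneg_left h5 hB
    have h10 : (B + 1) * w * ‖z - y‖ ≤ (B + 1) * w * (2 * K * ‖f z - f y‖) :=
      mul_le_mul_of_nonneg_left h3 (by positivity)
    have h11 : 2 * K * w * (B + 1) * ‖f z - f y‖ ≤ η * ‖f z - f y‖ :=
      mul_le_mul_of_nonneg_right hw2 (norm_nonneg _)
    have h12 : (B + 1) * w * (2 * K * ‖f z - f y‖) = 2 * K * w * (B + 1) * ‖f z - f y‖ := by ring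
    have h13 : (B + 1) * w * ‖z - y‖ = B * (w * ‖z - y‖) + w * ‖z - y‖ := by ring
    have h14 : B * (‖f z - f y‖ + w * ‖z - y‖) = B * ‖f z - f y‖ + B * (w * ‖z - y‖) := by ring
    have h15 : (B + η) * ‖f z - f y‖ = B * ‖f z - f y‖ + η * ‖f z - f y‖ := by ring
    linarith
  · intro hge
    filter_upwards [e1, e2] with z h1 h2
    have h3 := key z h1
    have h4 := hge (z - y)
    have h5 : ‖f z - f y‖ ≤ ‖fderiv ℝ f y (z - y)‖ + w * ‖z - y‖ := by
      have h6 : f z - f y = fderiv ℝ f y (z - y) + (f z - f y - fderiv ℝ f y (z - y)) := by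
        abel
      calc ‖f z - f y‖ = ‖fderiv ℝ f y (z - y) + (f z - f y - fderiv ℝ f y (z - y))‖ := by
            rw [← h6]
        _ ≤ ‖fderiv ℝ f y (z - y)‖ + ‖f z - f y - fderiv ℝ f y (z - y)‖ := norm_add_le _ _
        _ ≤ _ := by linarith
    have h7 : ‖fderiv ℝ g y (z - y)‖ ≤ ‖g z - g y‖ + w * ‖z - y‖ := by
      have h8 : fderiv ℝ g y (z - y) = (g z - g y) - (g z - g y - fderiv ℝ g y (z - y)) := by
        abel
      calc ‖fderiv ℝ g y (z - y)‖ = ‖(g z - g y) - (g z - g y - fderiv ℝ g y (z - y))‖ := by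
            rw [← h8]
        _ ≤ ‖g z - g y‖ + ‖g z - g y - fderiv ℝ g y (z - y)‖ := norm_sub_le _ _
        _ ≤ _ := by linarith
    have h9 : B * ‖f z - f y‖ ≤ B * (‖fderiv ℝ f y (z - y)‖ + w * ‖z - y‖) :=
      mul_le_mul_of_nonneg_left h5 hB
    have h10 : (B + 1) * w * ‖z - y‖ ≤ (B + 1) * w * (2 * K * ‖f z - f y‖) :=
      mul_le_mul_of_nonneg_left h3 (by positivity)
    have h11 : 2 * K * w * (B + 1) * ‖f z - f y‖ ≤ η * ‖f z - f y‖ :=
      mul_le_mul_of_nonneg_right hw2 (norm_nonneg _)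
    have h12 : (B + 1) * w * (2 * K * ‖f z - f y‖) = 2 * K * w * (B + 1) * ‖f z - f y‖ := by ring
    have h13 : (B + 1) * w * ‖z - y‖ = B * (w * ‖z - y‖) + w * ‖z - y‖ := by ring
    have h14 : B * (‖fderiv ℝ f y (z - y)‖ + w * ‖z - y‖) =
        B * ‖fderiv ℝ f y (z - y)‖ + B * (w * ‖z - y‖) := by ring
    have h15 : (B - η) * ‖f z - f y‖ = B * ‖f z - f y‖ - η * ‖f z - f y‖ := by ring
    linarith

theorem hLPG : StCDG → StLPG := by
  intro hCDG n N M _ _ _ J F hF t ht V _ _ u q hu B η hB hη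
  obtain ⟨hd, _, _, hi, _, _⟩ := hCDG n N M J F hF t ht q
  have hmain := coreLPG (fun z => F ((chartAt (EE n) q).symm z) t)
    (fun z => u ((chartAt (EE n) q).symm z)) (chartAt (EE n) q q) hd hu
    (fun h hh => hi h hh) B η hB hη
  have hq : (chartAt (EE n) q).symm (chartAt (EE n) q q) = q :=
    (chartAt (EE n) q).left_inv (mem_chart_source (EE n) q)
  have htr : ∀ P : EE n → Prop, (∀ᶠ z in 𝓝 (chartAt (EE n) q q), P z) →
      ∀ᶠ p in 𝓝 q, P (chartAt (EE n) q p) := by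
    intro P hP
    exact ((chartAt (EE n) q).continuousAt (mem_chart_source (EE n) q)).eventually hP
  have hsrc : ∀ᶠ p in 𝓝 q, p ∈ (chartAt (EE n) q).source :=
    (chartAt (EE n) q).open_source.mem_nhds (mem_chart_source (EE n) q)
  constructor
  · intro h1
    have h2 := htr _ (hmain.1 h1)
    filter_upwards [h2, hsrc] with p h3 h4
    have h5 : (chartAt (EE n) q).symm (chartAt (EE n) q p) = p :=
      (chartAt (EE n) q).left_inv h4
    simp only [h5, hq] at h3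
    exact h3
  · intro h1
    have h2 := htr _ (hmain.2 h1)
    filter_upwards [h2, hsrc] with p h3 h4
    have h5 : (chartAt (EE n) q).symm (chartAt (EE n) q p) = p :=
      (chartAt (EE n) q).left_inv h4
    simp only [h5, hq] at h3
    exact h3

end Helper87.HC
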