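import Pool.Agent.Helper35.HC.StA

/-!
# HC module MXE: a maximal orthonormal pair exists
-/

set_option autoImplicit false

namespace Helper87.HC

open Helper35.HC Helper35.HSF Helper35.MS Helper35.PI Helper35.PI2 Helper32.CL

theorem hMXE : StMXE := by
  intro n N hn A
  obtain ⟨S, hS⟩ : ∃ S : Set ((Fin n → ℝ) × (Fin n → ℝ)), S = {z | OP z.1 z.2} := ⟨_, rfl⟩
  have hclosed : IsClosed S := by
    have h1 : IsClosed {z : (Fin n → ℝ) × (Fin n → ℝ) | ∑ i, z.1 i ^ 2 = 1} :=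
      isClosed_eq (by fun_prop) continuous_const
    have h2 : IsClosed {z : (Fin n → ℝ) × (Fin n → ℝ) | ∑ i, z.2 i ^ 2 = 1} :=
      isClosed_eq (by fun_prop) continuous_const
    have h3 : IsClosed {z : (Fin n → ℝ) × (Fin n → ℝ) | ∑ i, z.1 i * z.2 i = 0} :=
      isClosed_eq (by fun_prop) continuous_const
    have : S = {z : (Fin n → ℝ) × (Fin n → ℝ) | ∑ i, z.1 i ^ 2 = 1} ∩
        ({z : (Fin n → ℝ) × (Fin n → ℝ) | ∑ i, z.2 i ^ 2 = 1} ∩
        {z : (Fin n → ℝ) × (Fin n → ℝ) | ∑ i, z.1 i * z.2 i = 0}) := by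
      rw [hS]
      ext z
      simp [OP]
    rw [this]
    exact h1.inter (h2.inter h3)
  have hcoord : ∀ c : Fin n → ℝ, ∑ i, c i ^ 2 = 1 → ‖c‖ ≤ 1 := by
    intro c hc
    rw [pi_norm_le_iff_of_nonneg zero_le_one]
    intro i
    have hi : c i ^ 2 ≤ 1 := by
      rw [← hc]
      exact Finset.single_le_sum (f := fun i => c i ^ 2) (fun j _ => sq_nonneg (c j))
        (Finset.mem_univ i)
    rw [Real.norm_eq_abs]
    exact (sq_le_one_iff_abs_le_one (c i)).mp hi
  have hbdd : Bornology.IsBounded S := by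
    rw [isBounded_iff_forall_norm_le]
    refine ⟨1, ?_⟩
    intro z hz
    rw [hS] at hz
    have hz' : OP z.1 z.2 := hz
    rw [Prod.norm_def]
    exact max_le (hcoord _ hz'.1) (hcoord _ hz'.2.1)
  have hcomp : IsCompact S := Metric.isCompact_of_isClosed_isBounded hclosed hbdd
  have hne : S.Nonempty := by
    refine ⟨((fun i => if i = (⟨0, by omega⟩ : Fin n) then (1 : ℝ) else 0),
      (fun i => if i = (⟨1, by omega⟩ : Fin n) then (1 : ℝ) else 0)), ?_⟩
    rw [hS]
    show OP _ _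
    refine ⟨?_, ?_, ?_⟩
    · simp
    · simp
    · apply Finset.sum_eq_zero
      intro i _
      by_cases h0 : (i : ℕ) = 0
      · simp [Fin.ext_iff, h0]
      · simp [Fin.ext_iff, h0]
  have hcont : Continuous (fun z : (Fin n → ℝ) × (Fin n → ℝ) => ‖bilV A z.1 z.2‖ ^ 2) := by
    unfold bilV
    fun_prop
  obtain ⟨z, hz, hmax⟩ := hcomp.exists_isMaxOn hne hcont.continuousOn
  rw [hS] at hz
  refine ⟨z.1, z.2, hz, ?_⟩
  intro c d hcd
  have := hmax (show (c, d) ∈ S by rw [hS]; exact hcd)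
  exact this

end Helper87.HC
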